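import Pool.Agent.Helper93.UV.ToMeas
import Pool.Agent.Helper93.UG.Q3

/-!
# UV-Q3: the two measure statements
-/

set_option autoImplicit false
open MeasureTheory Set Filter Topology
open Pool.Agent.Helper57.Zeta Pool.Agent.Helper57.LH Pool.Agent.Helper57.ED Pool.Agent.Helper54.LG
open Pool.Agent.Helper69.UV
open Pool.Agent.Helper93.UG (zc IsOrd sp shift_vol ZcMeas)

namespace Pool.Agent.Helper93.UV

/-- Q0. -/
def ToMeas (δ : ℝ) : Prop := ∃ A c0 T0 : ℝ, 0 < A ∧ ∀ T, T0 ≤ T → ∀ c, Adm δ c0 T c → ∀ v : ℝ,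
    v ^ 2 = (1 - 4 * δ) * c → ∀ G : Set ℝ,
    MeasurableSet G →
    (∀ τ, 5 / 4 * T ≤ τ → τ ≤ 7 / 4 * T → ∃ s : ℝ, |s| ≤ √T ∧
      Real.exp (-c) * VV δ T c v ≤ ∫ t in {t : ℝ | t + s ∈ G}, wt δ T c v τ t) →
    ENNReal.ofReal (Real.exp (-(A * c)) * T) ≤ volume (G ∩ Icc T (2 * T))

/-- Q1. -/
def Few (δ : ℝ) : Prop := ∃ c0 T0 : ℝ, ∀ T, T0 ≤ T → ∀ c, Adm δ c0 T c → ∀ v : ℝ,
    v ^ 2 = (1 - 4 * δ) * c → 0 < v →
    ∀ τ, T ≤ τ → τ ≤ 2 * T → ∃ s : ℝ, |s| ≤ √T ∧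
      Real.exp (-c) * VV δ T c v ≤ ∫ t in {t : ℝ | t + s ∈
        {t : ℝ | (zc (Ico (t - HH T c) (t + HH T c)) : ℝ) ≤ c - (1 - 21 * δ) * √c ∧
          ∃ ρ : ZS, t - HH T c - 16 / XX δ T c ≤ (ρ : ℂ).im ∧ (ρ : ℂ).im < t - HH T c}}, wt δ T c v τ t

/-- Q2. -/
def Many (δ : ℝ) : Prop := ∃ c0 T0 : ℝ, ∀ T, T0 ≤ T → ∀ c, Adm δ c0 T c → ∀ v : ℝ,
    v ^ 2 = (1 - 4 * δ) * c → v < 0 →
    ∀ τ, T ≤ τ → τ ≤ 2 * T → ∃ s : ℝ, |s| ≤ √T ∧
      Real.exp (-c) * VV δ T c v ≤ ∫ t in {t : ℝ | t + s ∈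
        {t : ℝ | c + (1 - 21 * δ) * √c ≤ (zc (Ico (t - HH T c) (t + HH T c)) : ℝ)}}, wt δ T c v τ t

/-- the numbers. -/
lemma numbers {A δ : ℝ} (hA : 0 < A) (hδ1 : δ ≤ 1 / 32) (hδ : 0 < δ) : ∀ᶠ T : ℝ in atTop, ∀ c : ℝ, 1 ≤ c →
    64 * (c * Real.log (Real.log T)) ≤ δ ^ 2 * Real.log T →
    HH T c ≤ 1 ∧ Real.exp (-((A + 1) * c)) * T + 1 ≤ Real.exp (-(A * c)) * T := by
  have hl := Real.tendsto_log_atTop
  have hll : Tendsto (fun T : ℝ => Real.log (Real.log T)) atTop atTop := hl.comp hl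
  filter_upwards [Pool.Agent.Helper93.UG.numbers hA, hl.eventually_gt_atTop 0] with T h hL c hc hc2
  have hδ2 : δ ^ 2 ≤ 1 := by nlinarith
  have h1 := h c hc (by nlinarith [mul_le_mul_of_nonneg_right hδ2 hL.le])
  refine ⟨?_, h1.2⟩
  have h2 := h1.1
  unfold Pool.Agent.Helper69.UG.XX at h2
  unfold HH
  rwa [div_div_eq_mul_div] at h2

lemma adm_of {δ T c : ℝ} (hll : 0 < Real.log (Real.log T))
    (h : c ≤ δ ^ 2 / 64 * (Real.log T / Real.log (Real.log T))) : 64 * (c * Real.log (Real.log T)) ≤ δ ^ 2 * Real.log T := by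
  have := mul_le_mul_of_nonneg_right h hll.le
  have e : δ ^ 2 / 64 * (Real.log T / Real.log (Real.log T)) * Real.log (Real.log T) = δ ^ 2 * Real.log T / 64 := by
    field_simp
  linarith

theorem mp_of (ht : ∀ δ : ℝ, 0 < δ → δ ≤ 1 / 32 → ToMeas δ) (hm : ∀ δ : ℝ, 0 < δ → δ ≤ 1 / 32 → Many δ) (hz : ZcMeas) :
    Mp := by
  intro η hη
  set δ : ℝ := min (1 / 32) (η / 21) with hδd
  have hδ : 0 < δ := lt_min (by norm_num) (by positivity)
  have hδ1 : δ ≤ 1 / 32 := min_le_left _ _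
  have hδ2 : 21 * δ ≤ η := by
    have := min_le_right (1 / 32) (η / 21)
    rw [← hδd] at this
    linarith
  obtain ⟨A, c1, T1, hA, ht⟩ := ht δ hδ hδ1
  obtain ⟨c2, T2, hm⟩ := hm δ hδ hδ1
  have hl := Real.tendsto_log_atTop
  have hll : Tendsto (fun T : ℝ => Real.log (Real.log T)) atTop atTop := hl.comp hl
  obtain ⟨T3, hT3⟩ := eventually_atTop.mp ((numbers hA hδ1 hδ).and ((hl.eventually_gt_atTop 0).and
    ((hll.eventually_gt_atTop 0).and (eventually_ge_atTop 1))))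
  refine ⟨A + 1, max 1 (max c1 c2), δ ^ 2 / 64, max T3 (max T1 T2), by linarith, le_max_left _ _, by positivity,
    fun T hT c hc0 hc1 => ?_⟩
  obtain ⟨h1, hL, hLL, hT1⟩ := hT3 T ((le_max_left _ _).trans hT)
  have hc1' : 1 ≤ c := (le_max_left _ _).trans hc0
  have hcc := adm_of hLL hc1
  have hcc1 : c1 ≤ c := (le_max_left _ _).trans ((le_max_right _ _).trans hc0)
  have hcc2 : c2 ≤ c := (le_max_right _ _).trans ((le_max_right _ _).trans hc0)
  obtain ⟨h2, h3⟩ := h1 c hc1' hcc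
  have hpi := Real.pi_pos
  have hc0' : 0 < (1 - 4 * δ) * c := mul_pos (by linarith) (by linarith)
  have hs0 : 0 < √((1 - 4 * δ) * c) := Real.sqrt_pos.mpr hc0'
  have hv : (-√((1 - 4 * δ) * c)) ^ 2 = (1 - 4 * δ) * c := by
    rw [neg_sq, Real.sq_sqrt hc0'.le]
  have hH0 : 0 ≤ HH T c := by unfold HH; positivity
  set G : Set ℝ := {t : ℝ | c + (1 - 21 * δ) * √c ≤ (zc (Ico (t - HH T c) (t + HH T c)) : ℝ)} with hG
  have hGm : MeasurableSet G := measurableSet_le measurable_const (hz _)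
  have h4 := ht T ((le_max_left _ _).trans ((le_max_right _ _).trans hT)) c ⟨hcc1, hcc⟩ _ hv G hGm (fun τ hτ1 hτ2 =>
    hm T ((le_max_right _ _).trans ((le_max_right _ _).trans hT)) c ⟨hcc2, hcc⟩ _ hv (by linarith) τ (by linarith)
      (by linarith))
  refine shift_vol (δ := HH T c) hH0 h2 ((ENNReal.ofReal_le_ofReal h3).trans h4) ?_
  intro t ht1 ht2 ht3
  refine ⟨ht2, ht3, ?_⟩
  have h5 : c + (1 - 21 * δ) * √c ≤ (zc (Ico (t + HH T c - HH T c) (t + HH T c + HH T c)) : ℝ) := ht1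
  rw [add_sub_cancel_right] at h5
  have h6 : t + HH T c + HH T c = t + c * sp T := by
    unfold HH sp
    field_simp
    ring
  rw [h6] at h5
  refine le_trans ?_ h5
  have h7 : (1 - η) * √c ≤ (1 - 21 * δ) * √c := mul_le_mul_of_nonneg_right (by linarith) (Real.sqrt_nonneg _)
  linarith

theorem mm_of (ht : ∀ δ : ℝ, 0 < δ → δ ≤ 1 / 32 → ToMeas δ) (hm : ∀ δ : ℝ, 0 < δ → δ ≤ 1 / 32 → Few δ) (hz : ZcMeas) :
    Mm := by
  intro η hη
  set δ : ℝ := min (1 / 32) (η / 21) with hδd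
  have hδ : 0 < δ := lt_min (by norm_num) (by positivity)
  have hδ1 : δ ≤ 1 / 32 := min_le_left _ _
  have hδ2 : 21 * δ ≤ η := by
    have := min_le_right (1 / 32) (η / 21)
    rw [← hδd] at this
    linarith
  obtain ⟨A, c1, T1, hA, ht⟩ := ht δ hδ hδ1
  obtain ⟨c2, T2, hm⟩ := hm δ hδ hδ1
  have hl := Real.tendsto_log_atTop
  have hll : Tendsto (fun T : ℝ => Real.log (Real.log T)) atTop atTop := hl.comp hl
  obtain ⟨T3, hT3⟩ := eventually_atTop.mp ((numbers hA hδ1 hδ).and ((hl.eventually_gt_atTop 0).and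
    ((hll.eventually_gt_atTop 0).and (eventually_ge_atTop 1))))
  refine ⟨A + 1, 3, max 1 (max c1 c2), δ ^ 2 / 64, max T3 (max T1 T2), by linarith, by norm_num, le_max_left _ _,
    by positivity, fun T hT c hc0 hc1 => ?_⟩
  obtain ⟨h1, hL, hLL, hT1⟩ := hT3 T ((le_max_left _ _).trans hT)
  have hc1' : 1 ≤ c := (le_max_left _ _).trans hc0
  have hcc := adm_of hLL hc1
  have hcc1 : c1 ≤ c := (le_max_left _ _).trans ((le_max_right _ _).trans hc0)
  have hcc2 : c2 ≤ c := (le_max_right _ _).trans ((le_max_right _ _).trans hc0)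
  obtain ⟨h2, h3⟩ := h1 c hc1' hcc
  have hpi := Real.pi_pos
  have hpi3 := Real.pi_gt_three
  have hc0' : 0 < (1 - 4 * δ) * c := mul_pos (by linarith) (by linarith)
  have hs0 : 0 < √((1 - 4 * δ) * c) := Real.sqrt_pos.mpr hc0'
  have hv : √((1 - 4 * δ) * c) ^ 2 = (1 - 4 * δ) * c := Real.sq_sqrt hc0'.le
  have hH0 : 0 ≤ HH T c := by unfold HH; positivity
  set G : Set ℝ := {t : ℝ | (zc (Ico (t - HH T c) (t + HH T c)) : ℝ) ≤ c - (1 - 21 * δ) * √c ∧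
          ∃ ρ : ZS, t - HH T c - 16 / XX δ T c ≤ (ρ : ℂ).im ∧ (ρ : ℂ).im < t - HH T c} with hG
  have hGm : MeasurableSet G := by
    have e : G = {t : ℝ | (zc (Ico (t - HH T c) (t + HH T c)) : ℝ) ≤ c - (1 - 21 * δ) * √c} ∩
        ⋃ ρ : ZS, {t : ℝ | t - HH T c - 16 / XX δ T c ≤ (ρ : ℂ).im ∧ (ρ : ℂ).im < t - HH T c} := by
      ext t
      simp only [hG, mem_ofPred_eq, mem_inter_iff, mem_iUnion]
    rw [e]
    apply MeasurableSet.inter (measurableSet_le (hz _) measurable_const)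
    apply MeasurableSet.iUnion
    intro ρ
    have h5 : Measurable fun t : ℝ => t - HH T c - 16 / XX δ T c := by fun_prop
    have h6 : Measurable fun t : ℝ => t - HH T c := by fun_prop
    exact (measurableSet_le h5 measurable_const).inter (measurableSet_lt measurable_const h6)
  have h4 := ht T ((le_max_left _ _).trans ((le_max_right _ _).trans hT)) c ⟨hcc1, hcc⟩ _ hv G hGm (fun τ hτ1 hτ2 =>
    hm T ((le_max_right _ _).trans ((le_max_right _ _).trans hT)) c ⟨hcc2, hcc⟩ _ hv hs0 τ (by linarith) (by linarith))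
  refine shift_vol (δ := HH T c) hH0 h2 ((ENNReal.ofReal_le_ofReal h3).trans h4) ?_
  intro t ht1 ht2 ht3
  obtain ⟨h5, ρ, h7, h8⟩ := ht1
  have h6 : t + HH T c + HH T c = t + c * sp T := by
    unfold HH sp
    field_simp
    ring
  rw [add_sub_cancel_right, h6] at h5
  rw [add_sub_cancel_right] at h7 h8
  refine ⟨ht2, ht3, h5.trans ?_, (ρ : ℂ).im, ⟨ρ, ?_, rfl⟩, ?_, h8⟩
  · have h7 : (1 - η) * √c ≤ (1 - 21 * δ) * √c := mul_le_mul_of_nonneg_right (by linarith) (Real.sqrt_nonneg _)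
    linarith
  · exact isNontrivialZero_iff.mpr ρ.2
  · refine le_trans ?_ h7
    have : 16 / XX δ T c ≤ 3 * c * sp T := by
      unfold XX sp
      rw [div_div_eq_mul_div, mul_div_assoc', div_le_div_iff_of_pos_right hL]
      have hδ3 : δ ^ 2 ≤ 1 := by nlinarith
      have : 16 * (δ ^ 2 * c) ≤ 16 * c := by nlinarith
      nlinarith
    linarith

end Pool.Agent.Helper93.UV
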