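import Pool.Agent.Helper69.UV.Defs
import Pool.Agent.Helper93.UG.ToMeas

/-!
# UV-Q0: from the weight to the measure in `[T, 2T]`
-/

set_option autoImplicit false
open MeasureTheory Set Filter Topology
open Pool.Agent.Helper57.Zeta Pool.Agent.Helper57.LH Pool.Agent.Helper57.ED Pool.Agent.Helper54.LG
open Pool.Agent.Helper69.UV
open Pool.Agent.Helper93.UG (mu_shift avg_mu vol_ge)

namespace Pool.Agent.Helper93.UV

/-- R7, the fourth moment. -/
def M4 (δ : ℝ) : Prop := ∃ A c0 T0 : ℝ, ∀ T, T0 ≤ T → ∀ c, Adm δ c0 T c → ∀ v : ℝ, v ^ 2 = (1 - 4 * δ) * c → ∀ τ : ℝ,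
    Integrable (fun t => PW (WW δ T) (t - τ) * ‖RR δ T c v t‖ ^ 4) ∧
    ∫ t, PW (WW δ T) (t - τ) * ‖RR δ T c v t‖ ^ 4 ≤ Real.exp (A * c) * VV δ T c v ^ 2

lemma one_le_VV {δ T c : ℝ} (hδ1 : δ ≤ 1 / 32) (hT : 1 ≤ T) (v : ℝ) : 1 ≤ VV δ T c v := by
  unfold VV
  have h0 : 1 ≤ T ^ (1 / 2 - δ) := Real.one_le_rpow hT (by linarith)
  have h1 : 1 ≤ NR δ T := by
    unfold NR
    exact Nat.le_floor (by exact_mod_cast h0)
  have h2 : (1:ℕ) ∈ Finset.Icc 1 (NR δ T) := Finset.mem_Icc.mpr ⟨le_rfl, h1⟩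
  have h3 : rr δ T c v 1 = 1 := by
    unfold rr
    have h5 : ((1:ℕ):ℝ) ≤ T ^ (1 / 2 - δ) := by exact_mod_cast h0
    rw [if_pos ⟨squarefree_one, by simp, h5⟩]
    simp
  have h4 := Finset.single_le_sum (f := fun n : ℕ => rr δ T c v n ^ 2 / (n : ℝ)) (fun i _ => by positivity) h2
  simp only [h3] at h4
  simpa using h4

lemma RR_cont (δ T c v : ℝ) : Continuous (RR δ T c v) := by
  unfold RR
  apply continuous_finsetSum
  intro n hn
  have hn1 : (n : ℂ) ≠ 0 := by
    have := (Finset.mem_Icc.mp hn).1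
    exact_mod_cast (by omega : n ≠ 0)
  apply continuous_const.mul
  apply Continuous.const_cpow (by fun_prop)
  left; exact hn1

/-- the measure of a set from its weight. -/
lemma mu_ge {δ T c v τ A : ℝ} (hδ1 : δ ≤ 1 / 32) (hT : 1 ≤ T) {S : Set ℝ} (hS : MeasurableSet S)
    (h4 : Integrable (fun t => PW (WW δ T) (t - τ) * ‖RR δ T c v t‖ ^ 4))
    (h4' : ∫ t, PW (WW δ T) (t - τ) * ‖RR δ T c v t‖ ^ 4 ≤ Real.exp (A * c) * VV δ T c v ^ 2)
    (h : Real.exp (-c) * VV δ T c v ≤ ∫ t in S, wt δ T c v τ t) :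
    Real.exp (-((A + 2) * c)) ≤ (mu (WW δ T) τ S).toReal := by
  have hV := one_le_VV (c := c) hδ1 hT v
  have hV0 : 0 < VV δ T c v := by linarith
  have hW : 0 < WW δ T := by unfold WW; positivity
  set B := Real.exp (A * c) * VV δ T c v ^ 2 with hB
  have hB0 : 0 < B := by positivity
  set a := Real.exp (-c) * VV δ T c v with ha
  have ha0 : 0 < a := by positivity
  set l := a / B with hl
  have hl0 : 0 < l := by positivity
  have hPi : Integrable (fun t => PW (WW δ T) (t - τ)) := (integral_PW hW).1.comp_sub_right τ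
  have hmu : (mu (WW δ T) τ S).toReal = ∫ t in S, PW (WW δ T) (t - τ) := by
    unfold mu
    rw [withDensity_apply _ hS, ← ofReal_integral_eq_lintegral_ofReal hPi.integrableOn
      (Eventually.of_forall fun t => (PW_pos hW _).le)]
    rw [ENNReal.toReal_ofReal]
    exact setIntegral_nonneg hS fun t _ => (PW_pos hW _).le
  have hpt : ∀ t, wt δ T c v τ t ≤ l / 2 * (PW (WW δ T) (t - τ) * ‖RR δ T c v t‖ ^ 4) + 1 / (2 * l) * PW (WW δ T) (t - τ) := by
    intro t
    unfold wt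
    have hp := PW_pos hW (t - τ)
    have h1 : ‖RR δ T c v t‖ ^ 2 ≤ l / 2 * ‖RR δ T c v t‖ ^ 4 + 1 / (2 * l) := by
      have h2 : 0 ≤ (l * ‖RR δ T c v t‖ ^ 2 - 1) ^ 2 := sq_nonneg _
      have h3 : l / 2 * ‖RR δ T c v t‖ ^ 4 + 1 / (2 * l) - ‖RR δ T c v t‖ ^ 2 = (l * ‖RR δ T c v t‖ ^ 2 - 1) ^ 2 / (2 * l) := by
        field_simp
        ring
      have h4 : 0 ≤ (l * ‖RR δ T c v t‖ ^ 2 - 1) ^ 2 / (2 * l) := by positivity
      linarith
    calc PW (WW δ T) (t - τ) * ‖RR δ T c v t‖ ^ 2 ≤ PW (WW δ T) (t - τ) * (l / 2 * ‖RR δ T c v t‖ ^ 4 + 1 / (2 * l)) :=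
          mul_le_mul_of_nonneg_left h1 hp.le
      _ = _ := by ring
  have hi : Integrable (fun t => l / 2 * (PW (WW δ T) (t - τ) * ‖RR δ T c v t‖ ^ 4) + 1 / (2 * l) * PW (WW δ T) (t - τ)) :=
    (h4.const_mul _).add (hPi.const_mul _)
  have hwm : AEStronglyMeasurable (fun t => wt δ T c v τ t) volume := by
    unfold wt
    apply Continuous.aestronglyMeasurable
    have h1 : Continuous fun t => PW (WW δ T) (t - τ) := by
      unfold PW
      have := Real.pi_pos
      apply Continuous.div continuous_const (by fun_prop)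
      intro t
      positivity
    exact h1.mul ((RR_cont δ T c v).norm.pow 2)
  have hwi : Integrable (fun t => wt δ T c v τ t) := by
    refine hi.mono' hwm (Eventually.of_forall fun t => ?_)
    rw [Real.norm_of_nonneg]
    · exact hpt t
    · unfold wt
      exact mul_nonneg (PW_pos hW _).le (by positivity)
  have h5 : ∫ t in S, wt δ T c v τ t ≤ l / 2 * B + 1 / (2 * l) * (mu (WW δ T) τ S).toReal := by
    calc ∫ t in S, wt δ T c v τ t ≤ ∫ t in S, (l / 2 * (PW (WW δ T) (t - τ) * ‖RR δ T c v t‖ ^ 4) + 1 / (2 * l) * PW (WW δ T) (t - τ)) :=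
          setIntegral_mono hwi.integrableOn hi.integrableOn hpt
      _ = l / 2 * (∫ t in S, PW (WW δ T) (t - τ) * ‖RR δ T c v t‖ ^ 4) + 1 / (2 * l) * ∫ t in S, PW (WW δ T) (t - τ) := by
          rw [integral_add (h4.const_mul _).integrableOn (hPi.const_mul _).integrableOn, integral_const_mul, integral_const_mul]
      _ ≤ l / 2 * B + 1 / (2 * l) * (mu (WW δ T) τ S).toReal := by
          rw [hmu]
          apply add_le_add _ le_rfl
          apply mul_le_mul_of_nonneg_left _ (by positivity)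
          refine le_trans ?_ h4'
          exact setIntegral_le_integral h4 (Eventually.of_forall fun t => mul_nonneg (PW_pos hW _).le (by positivity))
  have h6 : a ≤ l / 2 * B + 1 / (2 * l) * (mu (WW δ T) τ S).toReal := h.trans h5
  have h7 : l / 2 * B = a / 2 := by rw [hl]; field_simp
  have h8 : a / 2 ≤ 1 / (2 * l) * (mu (WW δ T) τ S).toReal := by linarith
  have h9 : a * l ≤ (mu (WW δ T) τ S).toReal := by
    have h10 : 1 / (2 * l) * (mu (WW δ T) τ S).toReal = (mu (WW δ T) τ S).toReal / (2 * l) := by ring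
    rw [h10, le_div_iff₀ (by positivity)] at h8
    linarith
  refine le_trans (le_of_eq ?_) h9
  rw [hl, ha, hB]
  have e1 : Real.exp (-c) * VV δ T c v * (Real.exp (-c) * VV δ T c v / (Real.exp (A * c) * VV δ T c v ^ 2)) =
      Real.exp (-c) * Real.exp (-c) / Real.exp (A * c) := by
    field_simp
  rw [e1, ← Real.exp_add, ← Real.exp_sub]
  congr 1
  ring

theorem to_meas_of {δ : ℝ} (hδ : 0 < δ) (hδ1 : δ ≤ 1 / 32) (hm4 : M4 δ) : ∃ A c0 T0 : ℝ, 0 < A ∧ ∀ T, T0 ≤ T → ∀ c, Adm δ c0 T c → ∀ v : ℝ, v ^ 2 = (1 - 4 * δ) * c → ∀ G : Set ℝ,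
    MeasurableSet G →
    (∀ τ, 5 / 4 * T ≤ τ → τ ≤ 7 / 4 * T → ∃ s : ℝ, |s| ≤ √T ∧
      Real.exp (-c) * VV δ T c v ≤ ∫ t in {t : ℝ | t + s ∈ G}, wt δ T c v τ t) →
    ENNReal.ofReal (Real.exp (-(A * c)) * T) ≤ volume (G ∩ Icc T (2 * T)) := by
  obtain ⟨A1, c1, T1, h4⟩ := hm4
  set A2 := max A1 0 + 2 with hA2
  have hA20 : 2 ≤ A2 := by rw [hA2]; linarith [le_max_right A1 0]
  have hl := Real.tendsto_log_atTop
  have hll : Tendsto (fun T : ℝ => Real.log (Real.log T)) atTop atTop := hl.comp hl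
  have e1 : ∀ᶠ T : ℝ in atTop, 128 * A2 / δ ≤ Real.log (Real.log T) := hll.eventually_ge_atTop _
  have e2 : ∀ᶠ T : ℝ in atTop, 32 ≤ T ^ (δ / 8192 : ℝ) := (tendsto_rpow_atTop (by positivity)).eventually_ge_atTop _
  have e3 : ∀ᶠ T : ℝ in atTop, 2 ≤ T ^ ((1 - δ / 4096) * 2 - 1 : ℝ) :=
    (tendsto_rpow_atTop (by linarith)).eventually_ge_atTop _
  obtain ⟨T2, hT2⟩ := eventually_atTop.mp (e1.and (e2.and (e3.and ((eventually_ge_atTop 1).and (hl.eventually_ge_atTop 1)))))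
  refine ⟨A2 + 3, max c1 1, max T1 T2, by linarith, fun T hT c hc v hv G hG hyp => ?_⟩
  obtain ⟨h1, h2, h3, hT1, hL1⟩ := hT2 T ((le_max_right _ _).trans hT)
  obtain ⟨hc1, hc2⟩ := hc
  have hcA : Adm δ c1 T c := ⟨(le_max_left _ _).trans hc1, hc2⟩
  have hc11 : 1 ≤ c := (le_max_right _ _).trans hc1
  have hT0 : 0 < T := by linarith
  have hW : 0 < WW δ T := by unfold WW; positivity
  have hV := one_le_VV (c := c) hδ1 hT1 v
  -- each centre
  have hmu : ∀ τ, 5 / 4 * T ≤ τ → τ ≤ 7 / 4 * T → ENNReal.ofReal (Real.exp (-(A2 * c)) / 2) ≤ mu (WW δ T) τ G := by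
    intro τ hτ1 hτ2
    obtain ⟨s, hs, hw⟩ := hyp τ hτ1 hτ2
    have hS : MeasurableSet {t : ℝ | t + s ∈ G} := by
      have : Measurable fun t : ℝ => t + s := by fun_prop
      exact this hG
    obtain ⟨i1, i2⟩ := h4 T ((le_max_left _ _).trans hT) c hcA v hv τ
    have i3 : ∫ t, PW (WW δ T) (t - τ) * ‖RR δ T c v t‖ ^ 4 ≤ Real.exp ((A2 - 2) * c) * VV δ T c v ^ 2 := by
      refine i2.trans ?_
      apply mul_le_mul_of_nonneg_right _ (by positivity)
      apply Real.exp_le_exp.mpr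
      apply mul_le_mul_of_nonneg_right _ (by linarith)
      rw [hA2]; linarith [le_max_left A1 0]
    have i4 := mu_ge hδ1 hT1 hS i1 i3 hw
    rw [sub_add_cancel] at i4
    have hfin : mu (WW δ T) τ {t : ℝ | t + s ∈ G} ≠ ⊤ := by
      have := mu_prob hW τ
      exact measure_ne_top _ _
    have i5 : ENNReal.ofReal (Real.exp (-(A2 * c))) ≤ mu (WW δ T) τ {t : ℝ | t + s ∈ G} := by
      rw [ENNReal.ofReal_le_iff_le_toReal hfin]; exact i4
    have hs2 : 2 * s ^ 2 ≤ WW δ T ^ 2 := by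
      have h5 : s ^ 2 ≤ T := by
        rw [← sq_abs]
        calc |s| ^ 2 ≤ √T ^ 2 := by gcongr
          _ = T := Real.sq_sqrt hT0.le
      have h6 : WW δ T ^ 2 = T ^ ((1 - δ / 4096) * 2 - 1 : ℝ) * T := by
        unfold WW
        rw [← Real.rpow_natCast, ← Real.rpow_mul hT0.le, ← Real.rpow_add_one hT0.ne']
        congr 1
        push_cast
        ring
      rw [h6]
      calc 2 * s ^ 2 ≤ 2 * T := by linarith
        _ ≤ _ := mul_le_mul_of_nonneg_right h3 hT0.le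
    have i6 := i5.trans (mu_shift (τ := τ) hW hs2 hG)
    have i7 : ENNReal.ofReal (Real.exp (-(A2 * c)) / 2) = ENNReal.ofReal (Real.exp (-(A2 * c))) / 2 := by
      rw [ENNReal.ofReal_div_of_pos (by norm_num)]; simp
    rw [i7]
    apply ENNReal.div_le_of_le_mul'
    exact i6
  have hvol := vol_ge hT0 hW hG hmu
  -- numbers
  have hx : T ^ (-(δ / 8192) : ℝ) ≤ Real.exp (-(A2 * c)) := by
    rw [Real.rpow_def_of_pos hT0]
    apply Real.exp_le_exp.mpr
    have hL0 : 0 < Real.log T := by linarith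
    have h5 : 64 * (c * (128 * A2 / δ)) ≤ δ ^ 2 * Real.log T := by
      refine le_trans ?_ hc2
      have := mul_le_mul_of_nonneg_left h1 (show 0 ≤ c by linarith)
      linarith
    have h6 : 64 * (c * (128 * A2 / δ)) = 8192 * (A2 * c) / δ := by field_simp; ring
    rw [h6, div_le_iff₀ hδ] at h5
    have h7 : δ ^ 2 * Real.log T * δ ≤ δ * Real.log T := by
      have h8 : δ ^ 2 ≤ 1 := by nlinarith
      have h9 : 0 < Real.log T * δ := by positivity
      nlinarith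
    have e9 : Real.log T * -(δ / 8192) = -(δ * Real.log T / 8192) := by ring
    rw [e9]
    linarith
  have hy : Real.exp (-(3 * c)) ≤ 1 / 8 := by
    have h5 : Real.exp (-(3 * c)) ≤ Real.exp (-3) := Real.exp_le_exp.mpr (by linarith)
    have h6 : (8:ℝ) ≤ Real.exp 3 := by
      have h7 := Real.exp_one_gt_d9
      have h8 : Real.exp 3 = Real.exp 1 ^ 3 := by rw [← Real.exp_nat_mul]; norm_num
      rw [h8]
      calc (8:ℝ) = 2 ^ 3 := by norm_num
        _ ≤ Real.exp 1 ^ 3 := by gcongr; linarith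
    rw [Real.exp_neg] at h5 ⊢
    refine le_trans ?_ (show (8:ℝ)⁻¹ ≤ 1 / 8 by norm_num)
    apply inv_anti₀ (by norm_num)
    refine h6.trans (Real.exp_le_exp.mpr (by linarith))
  have hz : 2 * WW δ T ≤ 1 / 8 * (T ^ (-(δ / 8192) : ℝ) * T) := by
    have e5 : WW δ T = T ^ (-(δ / 8192) : ℝ) * T ^ (-(δ / 8192) : ℝ) * T := by
      unfold WW
      rw [← Real.rpow_add hT0, ← Real.rpow_add_one hT0.ne']
      congr 1
      ring
    have e6 : T ^ (-(δ / 8192) : ℝ) ≤ 1 / 32 := by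
      rw [Real.rpow_neg hT0.le, ← one_div]
      exact one_div_le_one_div_of_le (by norm_num) h2
    rw [e5]
    have e7 : 0 < T ^ (-(δ / 8192) : ℝ) * T := by positivity
    nlinarith [mul_le_mul_of_nonneg_right e6 e7.le]
  have hfinal : Real.exp (-((A2 + 3) * c)) * T + 2 * WW δ T ≤ Real.exp (-(A2 * c)) / 2 * (T / 2) := by
    have e8 : Real.exp (-((A2 + 3) * c)) = Real.exp (-(A2 * c)) * Real.exp (-(3 * c)) := by
      rw [← Real.exp_add]; congr 1; ring
    rw [e8]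
    have e9 : Real.exp (-(A2 * c)) * Real.exp (-(3 * c)) * T ≤ Real.exp (-(A2 * c)) * (1 / 8) * T := by gcongr
    have e10 : T ^ (-(δ / 8192) : ℝ) * T ≤ Real.exp (-(A2 * c)) * T := by gcongr
    linarith
  have h10 : ENNReal.ofReal (Real.exp (-((A2 + 3) * c)) * T) + ENNReal.ofReal (2 * WW δ T) ≤
      volume (G ∩ Icc T (2 * T)) + ENNReal.ofReal (2 * WW δ T) := by
    rw [← ENNReal.ofReal_add (by positivity) (by positivity)]
    exact (ENNReal.ofReal_le_ofReal hfinal).trans hvol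
  exact (ENNReal.add_le_add_iff_right ENNReal.ofReal_ne_top).mp h10

end Pool.Agent.Helper93.UV
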