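import Pool.Agent.Helper24.UV.Red

/-!
# UV: the two theorems in one statement
-/

set_option autoImplicit false
open MeasureTheory Set Filter Topology
open Pool.Agent.Helper57.PC Pool.Agent.Helper93.UG
open Pool.Agent.Helper24.UV (FinalV)

namespace Pool.Agent.Helper93.UV

/-- Theorems U and V: the constant is `Θ` for small `r` and `1 - ε` for large `r`. -/
def Final2 : Prop := ∃ Θ : ℝ, 0 < Θ ∧ ∀ ε : ℝ, 0 < ε → ∃ (r₀ : ℕ) (δ A T₀ : ℝ), 0 < δ ∧ ∀ T : ℝ, T₀ ≤ T →
  ∀ r : ℕ, 1 ≤ r → (r : ℝ) ≤ δ * (Real.log T / Real.log (Real.log T)) →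
    Real.exp (-(A * r)) * (T * Real.log T) ≤ ((Glong T (r + (if r₀ ≤ r then 1 - ε else Θ) * √r) r).ncard : ℝ) ∧
    Real.exp (-(A * r)) * (T * Real.log T) ≤ ((Gshort T (r - (if r₀ ≤ r then 1 - ε else Θ) * √r) r).ncard : ℝ)

theorem final2_of (hu : Final) (hv : FinalV) : Final2 := by
  obtain ⟨Θ, A₁, T₁, hΘ, hA₁, hu⟩ := hu
  refine ⟨Θ, hΘ, fun ε hε => ?_⟩
  obtain ⟨r₀, δ, A₂, T₂, hδ, hA₂, hv⟩ := hv ε hε
  have hl := Real.tendsto_log_atTop
  have hll : Tendsto (fun T : ℝ => Real.log (Real.log T)) atTop atTop := hl.comp hl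
  obtain ⟨T₃, hT₃⟩ := eventually_atTop.mp ((hl.eventually_gt_atTop 0).and ((hll.eventually_gt_atTop 0).and
    (eventually_gt_atTop 0)))
  refine ⟨r₀, min δ Θ, max A₁ A₂, max T₃ (max T₁ T₂), lt_min hδ hΘ, fun T hT r hr hrT => ?_⟩
  obtain ⟨hL, hLL, hT0⟩ := hT₃ T ((le_max_left _ _).trans hT)
  have hq : 0 ≤ Real.log T / Real.log (Real.log T) := by positivity
  have h1 : (r : ℝ) ≤ Θ * (Real.log T / Real.log (Real.log T)) :=
    hrT.trans (mul_le_mul_of_nonneg_right (min_le_right _ _) hq)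
  have h2 : (r : ℝ) ≤ δ * (Real.log T / Real.log (Real.log T)) :=
    hrT.trans (mul_le_mul_of_nonneg_right (min_le_left _ _) hq)
  have hr0 : (0:ℝ) ≤ r := Nat.cast_nonneg r
  have hTL : 0 ≤ T * Real.log T := by positivity
  split_ifs with h
  · have h3 := hv T ((le_max_right _ _).trans ((le_max_right _ _).trans hT)) r h h2
    have h4 : Real.exp (-(max A₁ A₂ * r)) * (T * Real.log T) ≤ Real.exp (-(A₂ * r)) * (T * Real.log T) := by
      apply mul_le_mul_of_nonneg_right _ hTL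
      apply Real.exp_le_exp.mpr
      have := mul_le_mul_of_nonneg_right (le_max_right A₁ A₂) hr0
      linarith
    exact ⟨h4.trans h3.1, h4.trans h3.2⟩
  · have h3 := hu T ((le_max_left _ _).trans ((le_max_right _ _).trans hT)) r hr h1
    have h4 : Real.exp (-(max A₁ A₂ * r)) * (T * Real.log T) ≤ Real.exp (-(A₁ * r)) * (T * Real.log T) := by
      apply mul_le_mul_of_nonneg_right _ hTL
      apply Real.exp_le_exp.mpr
      have := mul_le_mul_of_nonneg_right (le_max_left A₁ A₂) hr0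
      linarith
    exact ⟨h4.trans h3.1, h4.trans h3.2⟩

end Pool.Agent.Helper93.UV
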